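import Mathlib
import Pool.Agent.H9.Newton

set_option autoImplicit false

namespace Pool.Agent.Results.MP_5875c4_co.Tall

abbrev E (n : ℕ) := EuclideanSpace ℝ (Fin n)

/-- `m` congruent copies of `C` cover `C + ε B` for some `ε > 0`. -/
def Covers {n : ℕ} (C : Set (E n)) (m : ℕ) : Prop :=
  ∃ g : Fin m → (E n ≃ᵢ E n), ∃ ε : ℝ, 0 < ε ∧
    ∀ p ∈ C, ∀ v : E n, ‖v‖ ≤ ε → p + v ∈ ⋃ j, g j '' C

/-- Newton covering number. -/
noncomputable def NStar {n : ℕ} (C : Set (E n)) : ℕ∞ := ⨅ m ∈ {m | Covers C m}, (m : ℕ∞)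

/-- Right pyramid of height `h` over the unit `k`-cube, in dimension `d = k + 1`. -/
def Pyr (k : ℕ) (h : ℝ) : Set (E (k + 1)) :=
  convexHull ℝ (insert (WithLp.toLp 2 fun i => if i = Fin.last k then h else 1 / 2)
    {x | x (Fin.last k) = 0 ∧ ∀ i, i ≠ Fin.last k → 0 ≤ x i ∧ x i ≤ 1})

/-- The unit `k`-cube. -/
def Cube (k : ℕ) : Set (E k) := {x | ∀ i, 0 ≤ x i ∧ x i ≤ 1}

theorem result (k : ℕ) (hk : 1 ≤ k) :
    ∃ h0 > 0, ∀ h ≥ h0, NStar (Pyr k h) < NStar (Cube k) + 1 := by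
  obtain ⟨h0, a, b⟩ := Pool.Agent.H9.Newton.tall_eq k
  refine ⟨h0, a, fun h hh => ?_⟩
  have h1 : NStar (Pyr k h) = 2 := b h hh
  have h2 : 2 ≤ NStar (Cube k) := Pool.Agent.H9.Newton.cube_ge k hk
  rw [h1]
  exact lt_of_lt_of_le (by norm_num : (2 : ℕ∞) < 2 + 1) (add_le_add h2 le_rfl)

end Pool.Agent.Results.MP_5875c4_co.Tall
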